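import Pool.Agent.T2H62.MP.C

set_option autoImplicit false

/-! # The number of symmetric pairs of random primes, almost surely -/

namespace Pool.Agent.T2H62.MP

open Finset Filter Topology MeasureTheory ProbabilityTheory
open Pool.Agent.T2H62.MD
open Pool.Agent.T2H53.GW (pr pr_nonneg pr_le_one one_le_VV VV_mono bc)
open Pool.Agent.T2H62.MM (tlog)
open Pool.Agent.T2H62.MT (SG SG_lim)
open Pool.Agent.T2H62.MK (FP FP_ge)

variable {Ω : Type*} [MeasurableSpace Ω] {μ : Measure Ω} {S : ℕ → Set Ω}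

/-- both `n - h` and `n + h` are chosen -/
def Ev (S : ℕ → Set Ω) (n h : ℕ) : Set Ω := if 0 < h ∧ h < n then S (n - h) ∩ S (n + h) else ∅

theorem Ev_meas (hm : ∀ n, MeasurableSet (S n)) (n h : ℕ) : MeasurableSet (Ev S n h) := by
  unfold Ev
  split_ifs
  · exact (hm _).inter (hm _)
  · exact MeasurableSet.empty

theorem two_meas (hm : ∀ n, MeasurableSet (S n)) (hi : iIndepSet S μ) (a b : ℕ) (hab : a ≠ b) :
    μ (S a ∩ S b) = μ (S a) * μ (S b) := by
  classical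
  have h1 := (iIndepSet_iff_meas_biInter hm).1 hi {a, b}
  have h2 : (⋂ i ∈ ({a, b} : Finset ℕ), S i) = S a ∩ S b := by
    ext ω
    simp
  rw [h2, prod_pair hab] at h1
  exact h1

theorem Ev_indep (hm : ∀ n, MeasurableSet (S n)) (hi : iIndepSet S μ) (n : ℕ) : iIndepSet (Ev S n) μ := by
  classical
  rw [iIndepSet_iff_meas_biInter (Ev_meas hm n)]
  intro s
  by_cases h : ∀ k ∈ s, 0 < k ∧ k < n
  · have h1 : (⋂ k ∈ s, Ev S n k) = ⋂ i ∈ s.image (fun k => n - k) ∪ s.image (fun k => n + k), S i := by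
      ext ω
      simp only [Set.mem_iInter, mem_union, mem_image]
      constructor
      · rintro h2 i (⟨k, h3, rfl⟩ | ⟨k, h3, rfl⟩)
        · have := h2 k h3
          unfold Ev at this
          rw [if_pos (h k h3)] at this
          exact this.1
        · have := h2 k h3
          unfold Ev at this
          rw [if_pos (h k h3)] at this
          exact this.2
      · intro h2 k hk
        unfold Ev
        rw [if_pos (h k hk)]
        exact ⟨h2 (n - k) (Or.inl ⟨k, hk, rfl⟩), h2 (n + k) (Or.inr ⟨k, hk, rfl⟩)⟩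
    have h2 : Disjoint (s.image (fun k => n - k)) (s.image (fun k => n + k)) := by
      rw [Finset.disjoint_left]
      intro a ha hb
      rw [mem_image] at ha hb
      obtain ⟨k, hk, rfl⟩ := ha
      obtain ⟨l, hl, h3⟩ := hb
      have h4 := h _ hk
      have h5 := h _ hl
      omega
    rw [h1, (iIndepSet_iff_meas_biInter hm).1 hi, prod_union h2, prod_image (fun a ha b hb hab => by
      have h4 := h a ha
      have h5 := h b hb
      have h6 : n - a = n - b := hab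
      omega), prod_image (fun a _ b _ hab => by
        have h6 : n + a = n + b := hab
        omega), ← prod_mul_distrib]
    refine prod_congr rfl fun k hk => ?_
    have h4 := h k hk
    unfold Ev
    rw [if_pos h4, two_meas hm hi _ _ (by omega)]
  · push Not at h
    obtain ⟨k, hk, h2⟩ := h
    have h3 : Ev S n k = ∅ := by
      unfold Ev
      rw [if_neg (by omega)]
    rw [prod_eq_zero hk (by rw [h3]; exact measure_empty)]
    have h4 : (⋂ i ∈ s, Ev S n i) ⊆ Ev S n k := Set.biInter_subset_of_mem hk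
    rw [h3] at h4
    rw [Set.subset_empty_iff.1 h4]
    exact measure_empty

theorem Ev_real {A : ℝ} (hm : ∀ n, MeasurableSet (S n)) (hi : iIndepSet S μ) (hp : ∀ n, μ.real (S n) = pr A n)
    (n h : ℕ) (h0 : 0 < h) (h1 : h < n) : μ.real (Ev S n h) = GG A n h := by
  unfold Ev GG
  rw [if_pos ⟨h0, h1⟩, measureReal_def, two_meas hm hi _ _ (by omega), ENNReal.toReal_mul, ← measureReal_def,
    ← measureReal_def, hp, hp]

variable [IsProbabilityMeasure μ]

/-- one pair of exponents -/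
theorem gold_one {A : ℝ} (hA : 0 < A) (hm : ∀ n, MeasurableSet (S n)) (hi : iIndepSet S μ) (hp : ∀ n, μ.real (S n) = pr A n)
    (σ : ℝ) (hσ : 0 < σ) (hSG : Tendsto SG atTop (𝓝 σ)) (ε : ℝ) (hε : 0 < ε) (hε1 : ε ≤ 1) (δ : ℝ) (hδ : 0 < δ) (hδ1 : δ ≤ 1) :
    ∀ᵐ ω ∂μ, ∀ᶠ n : ℕ in atTop, ∀ H : ℕ, (n : ℝ) ^ ε ≤ H → H < n →
      |cnt (Ioc 0 H) (Ev S n) ω - σ * FP (2 * n) * ((H : ℝ) / Real.log n ^ 2)| ≤
        2 * δ * (σ * FP (2 * n) * ((H : ℝ) / Real.log n ^ 2)) := by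
  classical
  obtain ⟨MM, hMM⟩ : ∃ MM : ℕ → ℕ → ℝ, MM = fun (n H : ℕ) => σ * FP (2 * n) * ((H : ℝ) / Real.log n ^ 2) := ⟨_, rfl⟩
  obtain ⟨B, hB⟩ : ∃ B : ℕ → ℕ → Set Ω, B = fun (n H : ℕ) => {ω | δ * MM n H ≤
      |cnt (Ioc 0 H) (Ev S n) ω - ∑ h ∈ Ioc 0 H, μ.real (Ev S n h)|} := ⟨_, rfl⟩
  obtain ⟨I, hI⟩ : ∃ I : ℕ → Finset ℕ, I = fun n : ℕ => (range n).filter (fun H : ℕ => (n : ℝ) ^ ε ≤ H) := ⟨_, rfl⟩
  have hmean := mean_all hA σ hσ hSG ε hε hε1 δ hδ hδ1
  have hreal : ∀ n H : ℕ, H < n → ∑ h ∈ Ioc 0 H, μ.real (Ev S n h) = ∑ h ∈ Ioc 0 H, GG A n h := by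
    intro n H hH
    refine sum_congr rfl fun h hh => ?_
    rw [mem_Ioc] at hh
    exact Ev_real hm hi hp n h hh.1 (by omega)
  have hprob : ∀ᶠ n : ℕ in atTop, μ.real (⋃ H ∈ I n, B n H) ≤ 2 * (1 / (n : ℝ) ^ 2) := by
    filter_upwards [hmean, log_pow_small 3 (24 / (δ ^ 2 * σ)) ε hε (by positivity), eventually_ge_atTop 3] with n e1 e2 e3
    have hn0 : (0 : ℝ) < n := by exact_mod_cast (by omega : 0 < n)
    have hL0 : 0 < Real.log (n : ℝ) := Real.log_pos (by exact_mod_cast (by omega : 1 < n))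
    have hone : ∀ H ∈ I n, μ.real (B n H) ≤ 2 * (1 / (n : ℝ) ^ 3) := by
      intro H hH
      rw [hI, mem_filter, mem_range] at hH
      obtain ⟨hH1, hH2⟩ := hH
      have hH0 : (0 : ℝ) < H := lt_of_lt_of_le (by positivity) hH2
      have b1 := e1 H hH2 hH1
      obtain ⟨M, hM⟩ : ∃ M, M = MM n H := ⟨_, rfl⟩
      have hM' : σ * FP (2 * n) * ((H : ℝ) / Real.log n ^ 2) = M := by rw [hM, hMM]
      rw [hM'] at b1
      have hFP := FP_ge (2 * n)
      have hM0 : 0 < M := by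
        rw [← hM']
        have : 0 < FP (2 * n) := by linarith
        positivity
      have h1 : ∑ h ∈ Ioc 0 H, μ.real (Ev S n h) ≤ 2 * M := by
        rw [hreal n H hH1]
        have := (abs_le.1 b1).2
        nlinarith
      have h2 := chernoff (Ev S n) (Ev_meas hm n) (Ev_indep hm hi n) (Ioc 0 H) (2 * M) (δ * M) h1 (by positivity)
        (by nlinarith) (by positivity)
      rw [hB]
      show μ.real {ω | δ * MM n H ≤ |cnt (Ioc 0 H) (Ev S n) ω - ∑ h ∈ Ioc 0 H, μ.real (Ev S n h)|} ≤ _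
      rw [← hM]
      refine h2.trans (mul_le_mul_of_nonneg_left ?_ (by norm_num))
      have h3 : (δ * M) ^ 2 / (4 * (2 * M)) = δ ^ 2 * M / 8 := by field_simp; ring
      rw [h3]
      have h4 : 24 * Real.log n ≤ δ ^ 2 * M := by
        have k1 : 24 / (δ ^ 2 * σ) * Real.log n ^ 3 ≤ H := e2.trans hH2
        rw [div_mul_eq_mul_div, div_le_iff₀ (by positivity)] at k1
        have k2 : σ * ((H : ℝ) / Real.log n ^ 2) ≤ M := by
          rw [← hM']
          apply mul_le_mul_of_nonneg_right _ (by positivity)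
          exact le_mul_of_one_le_right hσ.le hFP
        calc 24 * Real.log n = 24 * Real.log n ^ 3 / Real.log n ^ 2 := by field_simp
          _ ≤ H * (δ ^ 2 * σ) / Real.log n ^ 2 := div_le_div_of_nonneg_right k1 (by positivity)
          _ = δ ^ 2 * (σ * ((H : ℝ) / Real.log n ^ 2)) := by ring
          _ ≤ δ ^ 2 * M := mul_le_mul_of_nonneg_left k2 (by positivity)
      calc Real.exp (-(δ ^ 2 * M / 8)) ≤ Real.exp (-(3 * Real.log n)) := Real.exp_le_exp.2 (by linarith)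
        _ = 1 / (n : ℝ) ^ 3 := by
          rw [Real.exp_neg, show 3 * Real.log (n : ℝ) = Real.log ((n : ℝ) ^ 3) by rw [Real.log_pow]; norm_num,
            Real.exp_log (by positivity), one_div]
    have hcard : ((I n).card : ℝ) ≤ n := by
      have h1 : (I n).card ≤ n := by
        rw [hI]
        refine (card_filter_le _ _).trans ?_
        rw [card_range]
      exact_mod_cast h1
    calc μ.real (⋃ H ∈ I n, B n H) ≤ ∑ H ∈ I n, μ.real (B n H) := measureReal_biUnion_finset_le _ _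
      _ ≤ ∑ H ∈ I n, 2 * (1 / (n : ℝ) ^ 3) := sum_le_sum hone
      _ = (I n).card * (2 * (1 / (n : ℝ) ^ 3)) := by rw [sum_const, nsmul_eq_mul]
      _ ≤ n * (2 * (1 / (n : ℝ) ^ 3)) := mul_le_mul_of_nonneg_right hcard (by positivity)
      _ = 2 * (1 / (n : ℝ) ^ 2) := by field_simp
  obtain ⟨n₀, hn₀⟩ := eventually_atTop.1 hprob
  have hsum : Summable (fun n : ℕ => 2 * (1 / (n : ℝ) ^ 2)) :=
    (Real.summable_one_div_nat_pow.2 (by norm_num)).mul_left _
  have h2 := bc (μ := μ) (fun n => ⋃ H ∈ I n, B n H) n₀ _ hsum (fun n hn => hn₀ n hn)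
  filter_upwards [h2] with ω hω
  filter_upwards [hω, hmean, eventually_ge_atTop 3] with n h3 h4 h5 H hH1 hH2
  have hHmem : H ∈ I n := by
    rw [hI, mem_filter, mem_range]
    exact ⟨hH2, hH1⟩
  have h6 : ω ∉ B n H := by
    intro h7
    apply h3
    simp only [Set.mem_iUnion]
    exact ⟨H, hHmem, h7⟩
  rw [hB] at h6
  have h7 : |cnt (Ioc 0 H) (Ev S n) ω - ∑ h ∈ Ioc 0 H, μ.real (Ev S n h)| < δ * MM n H := by
    by_contra h8
    push Not at h8
    exact h6 h8
  rw [hreal n H hH2] at h7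
  have h8 := h4 H hH1 hH2
  have hM' : σ * FP (2 * n) * ((H : ℝ) / Real.log n ^ 2) = MM n H := by rw [hMM]
  rw [hM'] at h8 ⊢
  have h9 := abs_lt.1 h7
  have h10 := abs_le.1 h8
  rw [abs_le]
  constructor <;> linarith [h9.1, h9.2, h10.1, h10.2]

/-- **Goldbach's problem for the random primes** -/
theorem gold {A : ℝ} (hA : 0 < A) (hm : ∀ n, MeasurableSet (S n)) (hi : iIndepSet S μ) (hp : ∀ n, μ.real (S n) = pr A n)
    (σ : ℝ) (hσ : 0 < σ) (hSG : Tendsto SG atTop (𝓝 σ)) :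
    ∀ᵐ ω ∂μ, ∀ ε : ℝ, 0 < ε → ∀ δ : ℝ, 0 < δ → ∀ᶠ n : ℕ in atTop, ∀ H : ℕ, (n : ℝ) ^ ε ≤ H → H < n →
      |cnt (Ioc 0 H) (Ev S n) ω - σ * FP (2 * n) * ((H : ℝ) / Real.log n ^ 2)| ≤
        δ * (σ * FP (2 * n) * ((H : ℝ) / Real.log n ^ 2)) := by
  have h : ∀ᵐ ω ∂μ, ∀ i : ℕ, ∀ᶠ n : ℕ in atTop, ∀ H : ℕ, (n : ℝ) ^ (1 / ((i : ℝ) + 1)) ≤ H → H < n →
      |cnt (Ioc 0 H) (Ev S n) ω - σ * FP (2 * n) * ((H : ℝ) / Real.log n ^ 2)| ≤
        2 * (1 / ((i : ℝ) + 1)) * (σ * FP (2 * n) * ((H : ℝ) / Real.log n ^ 2)) := by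
    rw [ae_all_iff]
    intro i
    have h1 : 1 / ((i : ℝ) + 1) ≤ 1 := by
      rw [div_le_one (by positivity)]
      have : (0 : ℝ) ≤ i := Nat.cast_nonneg _
      linarith
    exact gold_one hA hm hi hp σ hσ hSG _ (by positivity) h1 _ (by positivity) h1
  filter_upwards [h] with ω hω ε hε δ hδ
  obtain ⟨i, hi'⟩ := exists_nat_one_div_lt (show 0 < min ε (δ / 2) from lt_min hε (by positivity))
  have hi1 := (hi'.trans_le (min_le_left _ _)).le
  have hi2 := (hi'.trans_le (min_le_right _ _)).le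
  filter_upwards [hω i, eventually_ge_atTop 3] with n h1 h2 H hH1 hH2
  have hn1 : (1 : ℝ) ≤ n := by exact_mod_cast (by omega : 1 ≤ n)
  refine (h1 H ((Real.rpow_le_rpow_of_exponent_le hn1 hi1).trans hH1) hH2).trans ?_
  apply mul_le_mul_of_nonneg_right (by linarith)
  have hFP := FP_ge (2 * n)
  have : 0 < FP (2 * n) := by linarith
  have : 0 ≤ (H : ℝ) := Nat.cast_nonneg _
  positivity

end Pool.Agent.T2H62.MP
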