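import Pool.Agent.T2H62.MK.B
import Pool.Agent.T2H62.MN.C
import Pool.Agent.T2H62.MD.O

set_option autoImplicit false

/-! # Symmetric pairs `n - h`, `n + h` without small prime factors -/

namespace Pool.Agent.T2H62.MP

open Finset Filter Topology MeasureTheory ProbabilityTheory
open Pool.Agent.T2H62.MD
open Pool.Agent.T2H53.GW (pr pr_nonneg pr_le_one one_le_VV VV_mono)
open Pool.Agent.T2H62.MM (tlog)
open Pool.Agent.T2H62.MG (ind ind_pos ind_neg ind_bd Rq za)
open Pool.Agent.T2H62.MT (SG SG_lim)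
open Pool.Agent.T2H62.ME (PP PP_nonneg)
open Pool.Agent.T2H62.MK (FP FZ FL FP_ge FP_split PP_FZ prod_ge fac_ge)
open Pool.Agent.H305R2 (VV VV_tendsto)

/-- the classes of `±n` -/
def XS (n p : ℕ) : Finset ℕ := {n % p, (p - n % p) % p}

theorem XS_sub (n : ℕ) {p : ℕ} (hp : 0 < p) : XS n p ⊆ range p := by
  intro x hx
  unfold XS at hx
  rw [mem_insert, mem_singleton] at hx
  rw [mem_range]
  rcases hx with rfl | rfl
  · exact Nat.mod_lt _ hp
  · exact Nat.mod_lt _ hp

theorem add_dvd_iff (n h : ℕ) {p : ℕ} (hp : 0 < p) : h % p = (p - n % p) % p ↔ p ∣ n + h := by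
  have h1 := Nat.mod_lt n hp
  have h2 := Nat.mod_lt h hp
  rw [Nat.dvd_iff_mod_eq_zero, Nat.add_mod]
  rcases Nat.eq_zero_or_pos (n % p) with h0 | h0
  · rw [h0, Nat.sub_zero, Nat.mod_self, Nat.zero_add, Nat.mod_mod]
  · rw [Nat.mod_eq_of_lt (show p - n % p < p by omega)]
    constructor
    · intro h3
      rw [h3]
      have : n % p + (p - n % p) = p := by omega
      rw [this, Nat.mod_self]
    · intro h3
      have h4 : p ∣ n % p + h % p := Nat.dvd_of_mod_eq_zero h3
      obtain ⟨k, hk⟩ := h4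
      have h5 : k = 1 := by
        have h6 : n % p + h % p < 2 * p := by omega
        have h7 : 0 < n % p + h % p := by omega
        rcases Nat.lt_or_ge k 1 with h8 | h8
        · have : k = 0 := by omega
          rw [this] at hk
          omega
        · rcases Nat.lt_or_ge k 2 with h9 | h9
          · omega
          · have : p * 2 ≤ p * k := Nat.mul_le_mul_left _ h9
            omega
      rw [h5] at hk
      omega

theorem XS_card (n : ℕ) {p : ℕ} (hp : 0 < p) : ((XS n p).card : ℝ) = if p ∣ 2 * n then (1 : ℝ) else 2 := by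
  have h1 : n % p = (p - n % p) % p ↔ p ∣ 2 * n := by
    rw [add_dvd_iff n n hp, two_mul]
  unfold XS
  split_ifs with h
  · rw [← h1.2 h]
    simp
  · rw [card_pair (fun h2 => h (h1.1 h2))]
    norm_num

theorem XS_iff (n h : ℕ) {p : ℕ} (hp : 0 < p) (hh : h ≤ n) : h % p ∉ XS n p ↔ (¬ p ∣ n - h ∧ ¬ p ∣ n + h) := by
  unfold XS
  rw [mem_insert, mem_singleton, not_or, add_dvd_iff n h hp]
  refine and_congr_left fun _ => not_congr ?_
  rw [← Nat.modEq_iff_dvd' hh]
  rfl

/-- Legendre's sieve for the symmetric pairs -/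
theorem sym_leg (z n a b : ℕ) (hab : a ≤ b) (hbn : b ≤ n) :
    |∑ h ∈ Ioc a b, ind (Rq z (n - h)) * ind (Rq z (n + h)) - ((b : ℝ) - a) * PP z (2 * n)| ≤ 3 ^ (PJ z).card := by
  classical
  have h1 := legX (PJ z) (XS n) (fun p hp => PJ_prime hp) (fun p hp => XS_sub n (PJ_prime hp).pos) 1 one_pos
    (fun p _ => Nat.coprime_one_left p) 0 a b hab
  have h2 : (NX (PJ z) (XS n) 1 0 a b : ℝ) = ∑ h ∈ Ioc a b, ind (Rq z (n - h)) * ind (Rq z (n + h)) := by
    unfold NX
    rw [card_filter]
    push_cast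
    refine sum_congr rfl fun h hh => ?_
    rw [mem_Ioc] at hh
    have h3 : (h ≡ 0 [MOD 1] ∧ ∀ p ∈ PJ z, h % p ∉ XS n p) ↔ (Rq z (n - h) ∧ Rq z (n + h)) := by
      unfold Rq
      constructor
      · rintro ⟨-, h4⟩
        exact ⟨fun p hp => ((XS_iff n h (PJ_prime hp).pos (by omega)).1 (h4 p hp)).1,
          fun p hp => ((XS_iff n h (PJ_prime hp).pos (by omega)).1 (h4 p hp)).2⟩
      · rintro ⟨h4, h5⟩
        exact ⟨Nat.modEq_one, fun p hp => (XS_iff n h (PJ_prime hp).pos (by omega)).2 ⟨h4 p hp, h5 p hp⟩⟩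
    by_cases h4 : Rq z (n - h) ∧ Rq z (n + h)
    · rw [if_pos (h3.2 h4), ind_pos h4.1, ind_pos h4.2, mul_one]
    · rw [if_neg (fun h5 => h4 (h3.1 h5))]
      by_cases h6 : Rq z (n - h)
      · rw [ind_neg (fun h7 => h4 ⟨h6, h7⟩), mul_zero]
      · rw [ind_neg h6, zero_mul]
  have h3 : ∏ p ∈ PJ z, (1 - ((XS n p).card : ℝ) / p) = PP z (2 * n) := by
    unfold PP
    refine prod_congr rfl fun p hp => ?_
    rw [XS_card n (PJ_prime hp).pos]
  have h4 : ∏ p ∈ PJ z, (1 + ((XS n p).card : ℝ)) ≤ 3 ^ (PJ z).card := by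
    rw [← prod_const]
    apply Finset.prod_le_prod
    · intro p _
      positivity
    · intro p hp
      rw [XS_card n (PJ_prime hp).pos]
      split_ifs <;> norm_num
  rw [h2, h3] at h1
  simp only [Nat.cast_one, div_one] at h1
  exact h1.trans h4

/-- the large prime factors do not matter -/
theorem FL_bd2 {A : ℝ} (hA : 0 < A) (h z : ℕ) (hh : 1 ≤ h) (hz : z = za A h) (hz3 : 3 ≤ z) :
    1 ≤ FL z h ∧ FL z h ≤ Real.exp (4 / (A * Real.log z)) := by
  have hzr : (3 : ℝ) ≤ z := by exact_mod_cast hz3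
  have hmem : ∀ p ∈ h.primeFactors.filter (fun p => z < p), p.Prime ∧ z < p ∧ p ∣ h := by
    intro p hp
    rw [mem_filter, Nat.mem_primeFactors] at hp
    exact ⟨hp.1.1, hp.2, hp.1.2.1⟩
  have hlz : 0 < Real.log (z : ℝ) := Real.log_pos (by linarith)
  constructor
  · unfold FL
    apply prod_ge
    intro p hp
    exact ⟨(hmem p hp).1, by have := (hmem p hp).2.1; omega⟩
  · obtain ⟨P, hP⟩ : ∃ P, P = h.primeFactors.filter (fun p => z < p) := ⟨_, rfl⟩
    rw [← hP] at hmem
    have hh0 : (0 : ℝ) < h := by exact_mod_cast hh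
    have hcard : (P.card : ℝ) * Real.log z ≤ Real.log h := by
      have h1 : ∏ p ∈ P, p ∣ h := by
        apply Finset.prod_primes_dvd
        · intro p hp
          exact (hmem p hp).1.prime
        · intro p hp
          exact (hmem p hp).2.2
      have h2 : ∏ p ∈ P, p ≤ h := Nat.le_of_dvd (by omega) h1
      have h3 : z ^ P.card ≤ ∏ p ∈ P, p := by
        rw [← prod_const]
        exact prod_le_prod' fun p hp => (hmem p hp).2.1.le
      rw [← Real.log_pow]
      apply Real.log_le_log (by positivity)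
      exact_mod_cast h3.trans h2
    have hlog : Real.log h ≤ (z + 1) / A := by
      rw [le_div_iff₀ hA, mul_comm]
      have := Nat.lt_floor_add_one (A * Real.log (h : ℝ))
      rw [hz]
      unfold za
      exact this.le
    unfold FL
    rw [← hP]
    calc ∏ p ∈ P, ((p : ℝ) - 1) / (p - 2) ≤ ∏ p ∈ P, Real.exp (1 / ((z : ℝ) - 2)) := by
          apply Finset.prod_le_prod
          · intro p hp
            have := fac_ge p (hmem p hp).1 (by have := (hmem p hp).2.1; omega)
            linarith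
          · intro p hp
            have h1 : (z : ℝ) ≤ p := by exact_mod_cast (hmem p hp).2.1.le
            have h2 : ((p : ℝ) - 1) / (p - 2) = 1 / ((p : ℝ) - 2) + 1 := by
              have : (p : ℝ) - 2 ≠ 0 := by linarith
              field_simp
              ring
            rw [h2]
            have h3 : 1 / ((p : ℝ) - 2) ≤ 1 / ((z : ℝ) - 2) := div_le_div_of_nonneg_left (by norm_num) (by linarith) (by linarith)
            have := Real.add_one_le_exp (1 / ((z : ℝ) - 2))
            linarith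
      _ = Real.exp (P.card * (1 / ((z : ℝ) - 2))) := by
          rw [prod_const, ← Real.exp_nat_mul]
      _ ≤ Real.exp (4 / (A * Real.log z)) := by
          apply Real.exp_le_exp.2
          rw [mul_one_div, div_le_div_iff₀ (by linarith) (by positivity)]
          have h5 : (P.card : ℝ) * Real.log z ≤ (z + 1) / A := hcard.trans hlog
          rw [le_div_iff₀ hA] at h5
          nlinarith

theorem FL_lim {A : ℝ} (hA : 0 < A) (δ : ℝ) (hδ : 0 < δ) : ∀ᶠ h : ℕ in atTop, 1 ≤ FL (za A h) h ∧ FL (za A h) h ≤ 1 + δ := by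
  have hz : Tendsto (za A) atTop atTop := Pool.Agent.T2H62.MG.za_tendsto hA
  have h1 : Tendsto (fun h : ℕ => Real.exp (4 / (A * Real.log (za A h : ℝ)))) atTop (𝓝 1) := by
    have h2 : Tendsto (fun h : ℕ => 4 / (A * Real.log (za A h : ℝ))) atTop (𝓝 0) :=
      Tendsto.const_div_atTop ((tlog.comp hz).const_mul_atTop hA) 4
    have h3 := (Real.continuous_exp.tendsto 0).comp h2
    rwa [Real.exp_zero] at h3
  filter_upwards [h1.eventually (eventually_lt_nhds (show (1 : ℝ) < 1 + δ by linarith)), hz.eventually_ge_atTop 3,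
    eventually_ge_atTop 1] with h h2 h3 h4
  obtain ⟨h5, h6⟩ := FL_bd2 hA h (za A h) h4 rfl h3
  exact ⟨h5, h6.trans h2.le⟩

end Pool.Agent.T2H62.MP
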