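import Pool.Agent.T2H62.MP.A

set_option autoImplicit false

/-! # The expected number of symmetric pairs -/

namespace Pool.Agent.T2H62.MP

open Finset Filter Topology MeasureTheory ProbabilityTheory
open Pool.Agent.T2H62.MD
open Pool.Agent.T2H53.GW (pr pr_nonneg pr_le_one one_le_VV VV_mono)
open Pool.Agent.T2H62.MM (tlog)
open Pool.Agent.T2H62.MG (ind ind_pos ind_neg ind_bd Rq za)
open Pool.Agent.T2H62.MT (SG SG_lim)
open Pool.Agent.T2H62.ME (PP PP_nonneg)
open Pool.Agent.T2H62.MK (FP FZ FL FP_ge FP_split PP_FZ prod_ge fac_ge)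
open Pool.Agent.H305R2 (VV VV_tendsto)

theorem za_mono {A : ℝ} (hA : 0 < A) {m m' : ℕ} (hm : 1 ≤ m) (h : m ≤ m') : za A m ≤ za A m' := by
  unfold za
  apply Nat.floor_le_floor
  apply mul_le_mul_of_nonneg_left _ hA.le
  exact Real.log_le_log (by exact_mod_cast hm) (by exact_mod_cast h)

theorem Rq_mono {z z' m : ℕ} (h : z ≤ z') (h1 : Rq z' m) : Rq z m := fun p hp => h1 p (PJ_sub h hp)

theorem pr_hi2 {A : ℝ} (hA : 0 < A) (U W m : ℕ) (hU : 3 ≤ U) (h1 : U ≤ m) (h2 : m ≤ W) :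
    pr A m ≤ (VV (za A W) / Real.log m) * ind (Rq (za A U) m) := by
  classical
  have hlm : 0 < Real.log (m : ℝ) := Real.log_pos (by exact_mod_cast (by omega : 1 < m))
  have h3 := pr_eq_block (A := A) (n := m) (j := za A m) (by positivity) rfl
  have hV : VV (za A m) ≤ VV (za A W) := VV_mono (za_mono hA (by omega) h2)
  have hV0 := one_le_VV (za A m)
  by_cases h4 : Rq (za A U) m
  · rw [ind_pos h4, mul_one]
    refine h3.trans ?_
    rw [mul_one_div]
    apply div_le_div_of_nonneg_right _ hlm.le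
    split_ifs
    · exact hV
    · linarith
  · rw [ind_neg h4, mul_zero]
    refine h3.trans ?_
    rw [if_neg (show ¬ ∀ p ∈ PJ (za A m), ¬ p ∣ m from fun h5 => h4 (Rq_mono (za_mono hA (by omega) h1) h5)), zero_mul]

theorem pr_lo2 {A : ℝ} (hA : 0 < A) : ∃ a₀ : ℕ, 3 ≤ a₀ ∧ ∀ U W m : ℕ, a₀ ≤ U → U ≤ m → m ≤ W →
    (VV (za A U) / Real.log m) * ind (Rq (za A W) m) ≤ pr A m := by
  classical
  obtain ⟨x₁, hx₁⟩ := eventually_atTop.1 (pr_small A hA (1 / 2) (by norm_num))
  refine ⟨x₁ + 3, by omega, fun U W m h0 h1 h2 => ?_⟩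
  have hlm : 0 < Real.log (m : ℝ) := Real.log_pos (by exact_mod_cast (by omega : 1 < m))
  have h3 := Pool.Agent.T2H62.MN.pr_block (A := A) (n := m) (j := za A m) (by positivity) rfl
    (by have := hx₁ m (by omega); linarith)
  by_cases h4 : Rq (za A W) m
  · rw [ind_pos h4, mul_one, h3, if_pos (show ∀ p ∈ PJ (za A m), ¬ p ∣ m from Rq_mono (za_mono hA (by omega) h2) h4),
      mul_one_div]
    exact div_le_div_of_nonneg_right (VV_mono (za_mono hA (by omega) h1)) hlm.le
  · rw [ind_neg h4, mul_zero]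
    exact pr_nonneg A m

/-- the probability of the pair -/
noncomputable def GG (A : ℝ) (n h : ℕ) : ℝ := pr A (n - h) * pr A (n + h)

theorem GG_nonneg (A : ℝ) (n h : ℕ) : 0 ≤ GG A n h := mul_nonneg (pr_nonneg A _) (pr_nonneg A _)

theorem GG_up {A : ℝ} (hA : 0 < A) (n U a b : ℕ) (hU : 3 ≤ U) (hab : a ≤ b) (hb : b + U ≤ n) :
    ∑ h ∈ Ioc a b, GG A n h ≤ VV (za A (2 * n)) ^ 2 / (Real.log U * Real.log n) *
      (((b : ℝ) - a) * PP (za A U) (2 * n) + 3 ^ (PJ (za A U)).card) := by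
  have hU0 : (0 : ℝ) < U := by exact_mod_cast (by omega : 0 < U)
  have hn0 : (0 : ℝ) < n := by exact_mod_cast (by omega : 0 < n)
  have hlU : 0 < Real.log (U : ℝ) := Real.log_pos (by exact_mod_cast (by omega : 1 < U))
  have hln : 0 < Real.log (n : ℝ) := Real.log_pos (by exact_mod_cast (by omega : 1 < n))
  have hV0 := one_le_VV (za A (2 * n))
  have hterm : ∀ h ∈ Ioc a b, GG A n h ≤ VV (za A (2 * n)) ^ 2 / (Real.log U * Real.log n) *
      (ind (Rq (za A U) (n - h)) * ind (Rq (za A U) (n + h))) := by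
    intro h hh
    rw [mem_Ioc] at hh
    have h1 := pr_hi2 hA U (2 * n) (n - h) hU (by omega) (by omega)
    have h2 := pr_hi2 hA U (2 * n) (n + h) hU (by omega) (by omega)
    have i1 := (ind_bd (Rq (za A U) (n - h))).1
    have i2 := (ind_bd (Rq (za A U) (n + h))).1
    have h3 : pr A (n - h) ≤ (VV (za A (2 * n)) / Real.log U) * ind (Rq (za A U) (n - h)) := by
      refine h1.trans (mul_le_mul_of_nonneg_right ?_ i1)
      apply div_le_div_of_nonneg_left (by linarith) hlU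
      apply Real.log_le_log hU0
      exact_mod_cast (by omega : U ≤ n - h)
    have h4 : pr A (n + h) ≤ (VV (za A (2 * n)) / Real.log n) * ind (Rq (za A U) (n + h)) := by
      refine h2.trans (mul_le_mul_of_nonneg_right ?_ i2)
      apply div_le_div_of_nonneg_left (by linarith) hln
      apply Real.log_le_log hn0
      exact_mod_cast (by omega : n ≤ n + h)
    calc GG A n h ≤ ((VV (za A (2 * n)) / Real.log U) * ind (Rq (za A U) (n - h))) *
          ((VV (za A (2 * n)) / Real.log n) * ind (Rq (za A U) (n + h))) :=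
          mul_le_mul h3 h4 (pr_nonneg A _) (by positivity)
      _ = _ := by field_simp
  refine (sum_le_sum hterm).trans ?_
  rw [← mul_sum]
  apply mul_le_mul_of_nonneg_left _ (by positivity)
  have := (abs_le.1 (sym_leg (za A U) n a b hab (by omega))).2
  linarith

theorem GG_low {A : ℝ} (hA : 0 < A) : ∃ a₀ : ℕ, 3 ≤ a₀ ∧ ∀ n U a b : ℕ, a₀ ≤ U → a ≤ b → b + U ≤ n →
    VV (za A U) ^ 2 / (Real.log n * Real.log ((2 * n : ℕ) : ℝ)) *
      (((b : ℝ) - a) * PP (za A (2 * n)) (2 * n) - 3 ^ (PJ (za A (2 * n))).card) ≤ ∑ h ∈ Ioc a b, GG A n h := by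
  obtain ⟨a₀, h3, hlo⟩ := pr_lo2 hA
  refine ⟨a₀, h3, fun n U a b hU hab hb => ?_⟩
  have hn0 : (0 : ℝ) < n := by exact_mod_cast (by omega : 0 < n)
  have hln : 0 < Real.log (n : ℝ) := Real.log_pos (by exact_mod_cast (by omega : 1 < n))
  have hl2n : 0 < Real.log ((2 * n : ℕ) : ℝ) := Real.log_pos (by exact_mod_cast (by omega : 1 < 2 * n))
  have hV0 := one_le_VV (za A U)
  have hterm : ∀ h ∈ Ioc a b, VV (za A U) ^ 2 / (Real.log n * Real.log ((2 * n : ℕ) : ℝ)) *
      (ind (Rq (za A (2 * n)) (n - h)) * ind (Rq (za A (2 * n)) (n + h))) ≤ GG A n h := by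
    intro h hh
    rw [mem_Ioc] at hh
    have h1 := hlo U (2 * n) (n - h) hU (by omega) (by omega)
    have h2 := hlo U (2 * n) (n + h) hU (by omega) (by omega)
    have i1 := (ind_bd (Rq (za A (2 * n)) (n - h))).1
    have i2 := (ind_bd (Rq (za A (2 * n)) (n + h))).1
    have hlq : 0 < Real.log ((n - h : ℕ) : ℝ) := Real.log_pos (by exact_mod_cast (by omega : 1 < n - h))
    have hlp : 0 < Real.log ((n + h : ℕ) : ℝ) := Real.log_pos (by exact_mod_cast (by omega : 1 < n + h))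
    have h4 : (VV (za A U) / Real.log n) * ind (Rq (za A (2 * n)) (n - h)) ≤ pr A (n - h) := by
      refine le_trans (mul_le_mul_of_nonneg_right ?_ i1) h1
      apply div_le_div_of_nonneg_left (by linarith) hlq
      apply Real.log_le_log (by exact_mod_cast (by omega : 0 < n - h))
      exact_mod_cast (by omega : n - h ≤ n)
    have h5 : (VV (za A U) / Real.log ((2 * n : ℕ) : ℝ)) * ind (Rq (za A (2 * n)) (n + h)) ≤ pr A (n + h) := by
      refine le_trans (mul_le_mul_of_nonneg_right ?_ i2) h2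
      apply div_le_div_of_nonneg_left (by linarith) hlp
      apply Real.log_le_log (by exact_mod_cast (by omega : 0 < n + h))
      exact_mod_cast (by omega : n + h ≤ 2 * n)
    calc _ = ((VV (za A U) / Real.log n) * ind (Rq (za A (2 * n)) (n - h))) *
          ((VV (za A U) / Real.log ((2 * n : ℕ) : ℝ)) * ind (Rq (za A (2 * n)) (n + h))) := by field_simp
      _ ≤ GG A n h := mul_le_mul h4 h5 (by positivity) (pr_nonneg A _)
  refine le_trans ?_ (sum_le_sum hterm)
  rw [← mul_sum]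
  apply mul_le_mul_of_nonneg_left _ (by positivity)
  have := (abs_le.1 (sym_leg (za A (2 * n)) n a b hab (by omega))).1
  linarith

theorem FZ_le (z h : ℕ) (hz : 2 ≤ z) (hh : 1 ≤ h) : FZ z h ≤ FP h := by
  have h0 : 1 ≤ FZ z h := by
    unfold FZ
    apply prod_ge
    intro p hp
    rw [mem_filter] at hp
    exact ⟨PJ_prime hp.1, hp.2.2⟩
  have h1 : 1 ≤ FL z h := by
    unfold FL
    apply prod_ge
    intro p hp
    rw [mem_filter, Nat.mem_primeFactors] at hp
    exact ⟨hp.1.1, by omega⟩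
  rw [FP_split z h hz hh]
  exact le_mul_of_one_le_right (by linarith) h1

theorem FZ_pos (z h : ℕ) : 1 ≤ FZ z h := by
  unfold FZ
  apply prod_ge
  intro p hp
  rw [mem_filter] at hp
  exact ⟨PJ_prime hp.1, hp.2.2⟩

/-- admissible lower limits -/
structure Lim (A : ℝ) (U : ℕ → ℕ) (κ : ℝ) : Prop where
  top : Tendsto U atTop atTop
  le : ∀ᶠ n in atTop, U n ≤ n
  two : ∀ᶠ n in atTop, za A (2 * n) ≤ 2 * za A (U n)
  lim : Tendsto (fun n : ℕ => Real.log n / Real.log (U n)) atTop (𝓝 κ)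

theorem Lim.ratio {A : ℝ} (hA : 0 < A) {U : ℕ → ℕ} {κ : ℝ} (h : Lim A U κ) :
    Tendsto (fun n => VV (za A (2 * n)) / VV (za A (U n))) atTop (𝓝 1) := by
  refine VV_ratio (u := fun n => za A (U n)) (v := fun n => za A (2 * n)) ?_ ?_
  · exact (Pool.Agent.T2H62.MG.za_tendsto hA).comp h.top
  · filter_upwards [h.le, h.two, h.top.eventually_ge_atTop 1] with n h1 h2 h3
    exact ⟨za_mono hA h3 (by omega), h2⟩

theorem err_G {A : ℝ} (hA : 0 < A) (ε : ℝ) (hε : 0 < ε) : ∀ᶠ n : ℕ in atTop, ∀ z ≤ za A (2 * n), ∀ z' ≤ za A (2 * n),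
    VV z ^ 2 * 3 ^ (PJ z').card ≤ (n : ℝ) ^ ε := by
  filter_upwards [err_tuple A hA 2 ε 1 hε one_pos, eventually_ge_atTop 1] with n h1 h2 z hz z' hz'
  have hn0 : (0 : ℝ) < n := by exact_mod_cast h2
  have h3 : za A (2 * n) ≤ ⌊A * Real.log (4 * n)⌋₊ := by
    unfold za
    apply Nat.floor_le_floor
    apply mul_le_mul_of_nonneg_left _ hA.le
    apply Real.log_le_log (by exact_mod_cast (by omega : 0 < 2 * n))
    push_cast
    linarith
  rw [one_mul] at h1
  refine le_trans ?_ h1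
  have e : ((2 : ℕ) : ℝ) + 1 = 3 := by norm_num
  rw [e]
  have hV0 := one_le_VV z
  apply mul_le_mul
  · apply pow_le_pow_left₀ (by linarith)
    exact VV_mono (hz.trans h3)
  · apply pow_le_pow_right₀ (by norm_num)
    exact PJ_mono (hz'.trans h3)
  · positivity
  · positivity

/-- **upper bound** -/
theorem mean_up {A : ℝ} (hA : 0 < A) (σ : ℝ) (hσ : 0 < σ) (hSG : Tendsto SG atTop (𝓝 σ)) {U : ℕ → ℕ} {κ : ℝ}
    (hU : Lim A U κ) (δ : ℝ) (hδ : 0 < δ) (ε : ℝ) (hε : 0 < ε) :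
    ∀ᶠ n : ℕ in atTop, ∀ a b : ℕ, a ≤ b → b + U n ≤ n →
      ∑ h ∈ Ioc a b, GG A n h ≤ (κ + δ) * (σ * FP (2 * n) * (((b : ℝ) - a) / Real.log n ^ 2)) + (n : ℝ) ^ ε := by
  have hz := (Pool.Agent.T2H62.MG.za_tendsto hA).comp hU.top
  have h1 : Tendsto (fun n : ℕ => (VV (za A (2 * n)) / VV (za A (U n))) ^ 2 * (Real.log n / Real.log (U n)) *
      SG (za A (U n))) atTop (𝓝 (1 ^ 2 * κ * σ)) := (((hU.ratio hA).pow 2).mul hU.lim).mul (hSG.comp hz)
  rw [one_pow, one_mul] at h1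
  have h2 := h1.eventually (eventually_lt_nhds (show κ * σ < (κ + δ) * σ by nlinarith))
  filter_upwards [h2, err_G hA ε hε, hU.top.eventually_ge_atTop 3, tlog.eventually_ge_atTop 1, hU.le,
    hz.eventually_ge_atTop 2] with n h3 h4 h5 h6 h7 h8 a b hab hb
  have hln : 0 < Real.log (n : ℝ) := by linarith
  have hlU : 1 ≤ Real.log (U n : ℝ) := by
    have h3' : (3 : ℝ) ≤ U n := by exact_mod_cast h5
    rw [Real.le_log_iff_exp_le (by linarith)]
    have := Real.exp_one_lt_d9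
    linarith
  refine (GG_up hA n (U n) a b h5 hab hb).trans ?_
  have hV0 := one_le_VV (za A (U n))
  have hV1 := one_le_VV (za A (2 * n))
  have hzz : za A (U n) ≤ za A (2 * n) := za_mono hA (by omega) (by omega)
  have hab' : (0 : ℝ) ≤ (b : ℝ) - a := by
    have : (a : ℝ) ≤ b := by exact_mod_cast hab
    linarith
  have hFP := FP_split (za A (U n)) (2 * n)
  have e1 : VV (za A (U n)) ^ 2 * PP (za A (U n)) (2 * n) ≤ SG (za A (U n)) * FP (2 * n) := by
    rw [PP_FZ _ _ (Dvd.intro _ rfl)]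
    have e2 : VV (za A (U n)) ^ 2 * (PP (za A (U n)) 2 * FZ (za A (U n)) (2 * n)) =
        SG (za A (U n)) * FZ (za A (U n)) (2 * n) := by unfold SG; ring
    rw [e2]
    have hSG0 : 0 ≤ SG (za A (U n)) := by
      unfold SG
      exact mul_nonneg (sq_nonneg _) (PP_nonneg _ 2)
    apply mul_le_mul_of_nonneg_left _ hSG0
    exact FZ_le _ _ h8 (by omega)
  rw [mul_add]
  apply add_le_add
  · have e3 : VV (za A (2 * n)) ^ 2 / (Real.log (U n) * Real.log n) * (((b : ℝ) - a) * PP (za A (U n)) (2 * n)) =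
        (VV (za A (2 * n)) / VV (za A (U n))) ^ 2 * (Real.log n / Real.log (U n)) *
          (VV (za A (U n)) ^ 2 * PP (za A (U n)) (2 * n)) * (((b : ℝ) - a) / Real.log n ^ 2) := by
      have : VV (za A (U n)) ≠ 0 := by linarith
      have : Real.log (U n : ℝ) ≠ 0 := by linarith
      field_simp
    rw [e3]
    calc (VV (za A (2 * n)) / VV (za A (U n))) ^ 2 * (Real.log n / Real.log (U n)) *
          (VV (za A (U n)) ^ 2 * PP (za A (U n)) (2 * n)) * (((b : ℝ) - a) / Real.log n ^ 2) ≤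
          (VV (za A (2 * n)) / VV (za A (U n))) ^ 2 * (Real.log n / Real.log (U n)) *
          (SG (za A (U n)) * FP (2 * n)) * (((b : ℝ) - a) / Real.log n ^ 2) := by
          apply mul_le_mul_of_nonneg_right _ (by positivity)
          apply mul_le_mul_of_nonneg_left e1
          have : 0 < Real.log (U n : ℝ) := by linarith
          positivity
      _ = ((VV (za A (2 * n)) / VV (za A (U n))) ^ 2 * (Real.log n / Real.log (U n)) * SG (za A (U n))) *
          (FP (2 * n) * (((b : ℝ) - a) / Real.log n ^ 2)) := by ring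
      _ ≤ ((κ + δ) * σ) * (FP (2 * n) * (((b : ℝ) - a) / Real.log n ^ 2)) := by
          apply mul_le_mul_of_nonneg_right h3.le
          have := FP_ge (2 * n)
          positivity
      _ = _ := by ring
  · have e4 := h4 (za A (2 * n)) le_rfl (za A (U n)) hzz
    refine le_trans ?_ e4
    rw [div_mul_eq_mul_div]
    apply div_le_self (by positivity)
    nlinarith

/-- **lower bound** -/
theorem mean_low {A : ℝ} (hA : 0 < A) (σ : ℝ) (hσ : 0 < σ) (hSG : Tendsto SG atTop (𝓝 σ)) {U : ℕ → ℕ} {κ : ℝ}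
    (hU : Lim A U κ) (δ : ℝ) (hδ : 0 < δ) (ε : ℝ) (hε : 0 < ε) :
    ∀ᶠ n : ℕ in atTop, ∀ a b : ℕ, a ≤ b → b + U n ≤ n →
      (1 - δ) * (σ * FP (2 * n) * (((b : ℝ) - a) / Real.log n ^ 2)) - (n : ℝ) ^ ε ≤ ∑ h ∈ Ioc a b, GG A n h := by
  obtain ⟨a₀, ha3, hlow⟩ := GG_low hA
  have h2n : Tendsto (fun n : ℕ => 2 * n) atTop atTop := tendsto_id.const_mul_atTop' (by norm_num)
  have hz2 := (Pool.Agent.T2H62.MG.za_tendsto hA).comp h2n
  have hlog2 : Tendsto (fun n : ℕ => Real.log n / Real.log ((2 * n : ℕ) : ℝ)) atTop (𝓝 1) := by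
    have h1 : Tendsto (fun n : ℕ => Real.log 2 / Real.log (n : ℝ) + 1) atTop (𝓝 (0 + 1)) :=
      (Tendsto.const_div_atTop tlog _).add tendsto_const_nhds
    rw [zero_add] at h1
    have h2 := h1.inv₀ one_ne_zero
    rw [inv_one] at h2
    refine h2.congr' ?_
    filter_upwards [tlog.eventually_gt_atTop 0, eventually_ge_atTop 1] with n h3 h4
    have hn0 : (n : ℝ) ≠ 0 := by exact_mod_cast (by omega : n ≠ 0)
    push_cast
    rw [Real.log_mul (by norm_num) hn0]
    have : Real.log 2 + Real.log (n : ℝ) ≠ 0 := by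
      have := Real.log_pos (show (1 : ℝ) < 2 by norm_num)
      linarith
    field_simp
  have hr : Tendsto (fun n => VV (za A (U n)) / VV (za A (2 * n))) atTop (𝓝 1) := by
    have h1 := (hU.ratio hA).inv₀ one_ne_zero
    rw [inv_one] at h1
    refine h1.congr fun n => ?_
    rw [inv_div]
  have h1 : Tendsto (fun n : ℕ => (VV (za A (U n)) / VV (za A (2 * n))) ^ 2 * (Real.log n / Real.log ((2 * n : ℕ) : ℝ)) *
      SG (za A (2 * n))) atTop (𝓝 (1 ^ 2 * 1 * σ)) := ((hr.pow 2).mul hlog2).mul (hSG.comp hz2)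
  rw [one_pow, one_mul, one_mul] at h1
  have h2 := h1.eventually (eventually_gt_nhds (show (1 - δ / 2) * σ < σ by nlinarith))
  filter_upwards [h2, err_G hA ε hε, hU.top.eventually_ge_atTop a₀, tlog.eventually_ge_atTop 1, hU.le,
    h2n.eventually (FL_lim hA (δ / 2) (by positivity)), hz2.eventually_ge_atTop 2]
    with n h3 h4 h5 h6 h7 h8 h9 a b hab hb
  refine le_trans ?_ (hlow n (U n) a b h5 hab hb)
  have hn0 : (0 : ℝ) < n := by exact_mod_cast (by omega : 0 < n)
  have hln : 0 < Real.log (n : ℝ) := by linarith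
  have hl2n : 1 ≤ Real.log ((2 * n : ℕ) : ℝ) := by
    refine h6.trans (Real.log_le_log hn0 ?_)
    push_cast
    linarith
  have hV0 := one_le_VV (za A (U n))
  have hV1 := one_le_VV (za A (2 * n))
  have hzz : za A (U n) ≤ za A (2 * n) := za_mono hA (by omega) (by omega)
  have hab' : (0 : ℝ) ≤ (b : ℝ) - a := by
    have : (a : ℝ) ≤ b := by exact_mod_cast hab
    linarith
  have hFPg := FP_ge (2 * n)
  have hFP := FP_split (za A (2 * n)) (2 * n) h9 (by omega)
  obtain ⟨f, hf⟩ : ∃ f, f = FP (2 * n) := ⟨_, rfl⟩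
  obtain ⟨fz, hfz⟩ : ∃ fz, fz = FZ (za A (2 * n)) (2 * n) := ⟨_, rfl⟩
  have hfz0 : 1 ≤ fz := by rw [hfz]; exact FZ_pos _ _
  -- `(1 - δ / 2) f ≤ fz`
  have hff : (1 - δ / 2) * f ≤ fz := by
    rw [← hf, ← hfz] at hFP
    have h10 : f ≤ fz * (1 + δ / 2) := by
      rw [hFP]
      exact mul_le_mul_of_nonneg_left h8.2 (by linarith)
    rcases le_or_gt (1 - δ / 2) 0 with h11 | h11
    · have : (1 - δ / 2) * f ≤ 0 := mul_nonpos_of_nonpos_of_nonneg h11 (by linarith)
      linarith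
    · have h12 : (1 - δ / 2) * f ≤ (1 - δ / 2) * (fz * (1 + δ / 2)) := mul_le_mul_of_nonneg_left h10 h11.le
      nlinarith [sq_nonneg δ, mul_nonneg (sq_nonneg δ) (by linarith : 0 ≤ fz)]
  rw [← hf]
  have e1 : VV (za A (2 * n)) ^ 2 * PP (za A (2 * n)) (2 * n) = SG (za A (2 * n)) * fz := by
    rw [PP_FZ _ _ (Dvd.intro _ rfl), ← hfz]
    unfold SG
    ring
  rw [mul_sub]
  apply sub_le_sub
  · have e3 : VV (za A (U n)) ^ 2 / (Real.log n * Real.log ((2 * n : ℕ) : ℝ)) * (((b : ℝ) - a) * PP (za A (2 * n)) (2 * n)) =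
        (VV (za A (U n)) / VV (za A (2 * n))) ^ 2 * (Real.log n / Real.log ((2 * n : ℕ) : ℝ)) *
          (VV (za A (2 * n)) ^ 2 * PP (za A (2 * n)) (2 * n)) * (((b : ℝ) - a) / Real.log n ^ 2) := by
      have : VV (za A (2 * n)) ≠ 0 := by linarith
      have : Real.log ((2 * n : ℕ) : ℝ) ≠ 0 := by linarith
      field_simp
    rw [e3, e1]
    obtain ⟨D, hD⟩ : ∃ D, D = ((b : ℝ) - a) / Real.log n ^ 2 := ⟨_, rfl⟩
    have hD0 : 0 ≤ D := by rw [hD]; positivity
    obtain ⟨c, hc⟩ : ∃ c, c = (VV (za A (U n)) / VV (za A (2 * n))) ^ 2 * (Real.log n / Real.log ((2 * n : ℕ) : ℝ)) *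
      SG (za A (2 * n)) := ⟨_, rfl⟩
    rw [← hD]
    rw [← hc] at h3
    have e4 : (VV (za A (U n)) / VV (za A (2 * n))) ^ 2 * (Real.log n / Real.log ((2 * n : ℕ) : ℝ)) *
        (SG (za A (2 * n)) * fz) * D = c * fz * D := by rw [hc]; ring
    rw [e4]
    have hf0 : 0 < f := by rw [hf]; linarith
    rcases le_or_gt (1 - δ / 2) 0 with h11 | h11
    · have h12 : (1 - δ) * (σ * f * D) ≤ 0 :=
        mul_nonpos_of_nonpos_of_nonneg (by linarith) (by positivity)
      have h13 : 0 ≤ c := by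
        rw [hc]
        have hSG0 : 0 ≤ SG (za A (2 * n)) := by
          unfold SG
          exact mul_nonneg (sq_nonneg _) (PP_nonneg _ 2)
        have : 0 < Real.log ((2 * n : ℕ) : ℝ) := by linarith
        positivity
      have h14 : 0 ≤ c * fz * D := by positivity
      linarith
    · have h12 : (1 - δ / 2) * σ * ((1 - δ / 2) * f) ≤ c * fz :=
        mul_le_mul h3.le hff (by positivity) (by
          have : 0 < (1 - δ / 2) * σ := by positivity
          linarith)
      have h13 : (1 - δ) * (σ * f) ≤ (1 - δ / 2) * σ * ((1 - δ / 2) * f) := by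
        have : 0 < σ * f := by positivity
        nlinarith [mul_nonneg (sq_nonneg δ) this.le]
      calc (1 - δ) * (σ * f * D) = (1 - δ) * (σ * f) * D := by ring
        _ ≤ c * fz * D := mul_le_mul_of_nonneg_right (h13.trans h12) hD0
  · have e4 := h4 (za A (U n)) hzz (za A (2 * n)) le_rfl
    refine le_trans ?_ e4
    rw [div_mul_eq_mul_div]
    apply div_le_self (by positivity)
    nlinarith

end Pool.Agent.T2H62.MP
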