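import Pool.Agent.T2H62.MP.B

set_option autoImplicit false

/-! # The expected number of symmetric pairs, uniformly -/

namespace Pool.Agent.T2H62.MP

open Finset Filter Topology MeasureTheory ProbabilityTheory
open Pool.Agent.T2H62.MD
open Pool.Agent.T2H53.GW (pr pr_nonneg pr_le_one one_le_VV VV_mono)
open Pool.Agent.T2H62.MM (tlog)
open Pool.Agent.T2H62.MG (ind ind_pos ind_neg ind_bd Rq za)
open Pool.Agent.T2H62.MT (SG SG_lim)
open Pool.Agent.T2H62.ME (PP PP_nonneg)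
open Pool.Agent.T2H62.MK (FP FZ FL FP_ge FP_split PP_FZ prod_ge fac_ge)
open Pool.Agent.H305R2 (VV VV_tendsto)

theorem Lim_of {A : ℝ} (hA : 0 < A) (U : ℕ → ℕ) (θ C : ℝ) (hθ : 1 / 2 < θ) (htop : Tendsto U atTop atTop)
    (hle : ∀ᶠ n in atTop, U n ≤ n) (h : ∀ᶠ n : ℕ in atTop, |Real.log (U n) - θ * Real.log n| ≤ C) : Lim A U θ⁻¹ := by
  have hθ0 : 0 < θ := by linarith
  have h1 : Tendsto (fun n : ℕ => Real.log (U n) / Real.log n) atTop (𝓝 θ) := by
    have h2 : Tendsto (fun n : ℕ => (Real.log (U n) - θ * Real.log n) / Real.log n) atTop (𝓝 0) := by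
      have h3 : Tendsto (fun n : ℕ => C / Real.log (n : ℝ)) atTop (𝓝 0) := tendsto_const_nhds.div_atTop tlog
      refine squeeze_zero_norm' ?_ h3
      filter_upwards [h, tlog.eventually_gt_atTop 0] with n h4 h5
      rw [Real.norm_eq_abs, abs_div, abs_of_pos h5]
      exact div_le_div_of_nonneg_right h4 h5.le
    have h3 := h2.add_const θ
    rw [zero_add] at h3
    refine h3.congr' ?_
    filter_upwards [tlog.eventually_gt_atTop 0] with n h5
    field_simp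
    ring
  have hlim : Tendsto (fun n : ℕ => Real.log n / Real.log (U n)) atTop (𝓝 θ⁻¹) := by
    refine (h1.inv₀ hθ0.ne').congr fun n => ?_
    rw [inv_div]
  refine ⟨htop, hle, ?_, hlim⟩
  obtain ⟨κ, hκ1, hκ2⟩ : ∃ κ, θ⁻¹ < κ ∧ κ < 2 := by
    apply _root_.exists_between
    rw [inv_lt_comm₀ hθ0 (by norm_num)]
    linarith
  filter_upwards [hlim.eventually (eventually_lt_nhds hκ1), (tlog.comp htop).eventually_gt_atTop 0,
    (tlog.comp htop).eventually_ge_atTop ((A * Real.log 2 + 2) / ((2 - κ) * A)), eventually_ge_atTop 1] with n h2 h3 h4 h5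
  simp only [Function.comp] at h3 h4
  have hn0 : (0 : ℝ) < n := by exact_mod_cast h5
  rw [div_lt_iff₀ h3] at h2
  rw [div_le_iff₀ (by have : 0 < 2 - κ := by linarith
                      positivity)] at h4
  have h6 : Real.log ((2 * n : ℕ) : ℝ) = Real.log 2 + Real.log n := by
    push_cast
    exact Real.log_mul (by norm_num) hn0.ne'
  have h7 : A * Real.log ((2 * n : ℕ) : ℝ) ≤ 2 * (A * Real.log (U n)) - 2 := by
    rw [h6]
    have := mul_le_mul_of_nonneg_left h2.le hA.le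
    nlinarith
  have h8 := Nat.lt_floor_add_one (A * Real.log (U n : ℝ))
  have h9 : A * Real.log ((2 * n : ℕ) : ℝ) ≤ ((2 * za A (U n) : ℕ) : ℝ) := by
    unfold za
    push_cast at h7 ⊢
    linarith
  unfold za at h9 ⊢
  exact Nat.floor_le_of_le h9

theorem floor_log (x : ℝ) (hx : 2 ≤ x) : |Real.log (⌊x⌋₊ : ℝ) - Real.log x| ≤ Real.log 2 := by
  have h1 := Nat.floor_le (show 0 ≤ x by linarith)
  have h2 := Nat.lt_floor_add_one x
  have h3 : x / 2 ≤ (⌊x⌋₊ : ℝ) := by linarith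
  have h4 : Real.log (x / 2) ≤ Real.log (⌊x⌋₊ : ℝ) := Real.log_le_log (by linarith) h3
  rw [Real.log_div (by linarith) (by norm_num)] at h4
  have h5 : Real.log (⌊x⌋₊ : ℝ) ≤ Real.log x := Real.log_le_log (by linarith) h1
  have h6 := Real.log_pos (show (1 : ℝ) < 2 by norm_num)
  rw [abs_le]
  constructor <;> linarith

theorem Lim_one {A : ℝ} (hA : 0 < A) (η : ℝ) (h0 : 0 < η) (h1 : η < 1) : Lim A (fun n => ⌊η * (n : ℝ)⌋₊) 1 := by
  have hTn : Tendsto (fun n : ℕ => (n : ℝ)) atTop atTop := tendsto_natCast_atTop_atTop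
  have h := Lim_of hA (fun n => ⌊η * (n : ℝ)⌋₊) 1 (Real.log 2 + |Real.log η|) (by norm_num)
    (tendsto_nat_floor_atTop.comp (hTn.const_mul_atTop h0))
    (Eventually.of_forall fun n => by
      apply Nat.floor_le_of_le
      have : (0 : ℝ) ≤ n := Nat.cast_nonneg _
      nlinarith)
    (by
      filter_upwards [(hTn.const_mul_atTop h0).eventually_ge_atTop 2, eventually_ge_atTop 1] with n h2 h3
      have hn0 : (0 : ℝ) < n := by exact_mod_cast h3
      have h4 := floor_log _ h2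
      rw [Real.log_mul h0.ne' hn0.ne'] at h4
      have e : Real.log (⌊η * (n : ℝ)⌋₊ : ℝ) - 1 * Real.log n =
        (Real.log (⌊η * (n : ℝ)⌋₊ : ℝ) - (Real.log η + Real.log n)) + Real.log η := by ring
      rw [e]
      exact (abs_add_le _ _).trans (add_le_add h4 le_rfl))
  rwa [inv_one] at h

theorem Lim_two {A : ℝ} (hA : 0 < A) : Lim A (fun n => ⌊(n : ℝ) ^ (3 / 4 : ℝ)⌋₊) (3 / 4)⁻¹ := by
  have hTn : Tendsto (fun n : ℕ => (n : ℝ)) atTop atTop := tendsto_natCast_atTop_atTop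
  have hp : Tendsto (fun n : ℕ => (n : ℝ) ^ (3 / 4 : ℝ)) atTop atTop := (tendsto_rpow_atTop (by norm_num)).comp hTn
  refine Lim_of hA (fun n => ⌊(n : ℝ) ^ (3 / 4 : ℝ)⌋₊) (3 / 4) (Real.log 2) (by norm_num)
    (tendsto_nat_floor_atTop.comp hp) ?_ ?_
  · filter_upwards [eventually_ge_atTop 1] with n hn
    apply Nat.floor_le_of_le
    calc (n : ℝ) ^ (3 / 4 : ℝ) ≤ (n : ℝ) ^ (1 : ℝ) :=
          Real.rpow_le_rpow_of_exponent_le (by exact_mod_cast hn) (by norm_num)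
      _ = n := Real.rpow_one _
  · filter_upwards [hp.eventually_ge_atTop 2, eventually_ge_atTop 1] with n h2 h3
    have hn0 : (0 : ℝ) < n := by exact_mod_cast h3
    have h4 := floor_log _ h2
    rwa [Real.log_rpow hn0] at h4

/-- **the expected number, uniformly** -/
theorem mean_all {A : ℝ} (hA : 0 < A) (σ : ℝ) (hσ : 0 < σ) (hSG : Tendsto SG atTop (𝓝 σ)) (ε : ℝ) (hε : 0 < ε)
    (hε1 : ε ≤ 1) (δ : ℝ) (hδ : 0 < δ) (hδ1 : δ ≤ 1) :
    ∀ᶠ n : ℕ in atTop, ∀ H : ℕ, (n : ℝ) ^ ε ≤ H → H < n →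
      |∑ h ∈ Ioc 0 H, GG A n h - σ * FP (2 * n) * ((H : ℝ) / Real.log n ^ 2)| ≤
        δ * (σ * FP (2 * n) * ((H : ℝ) / Real.log n ^ 2)) := by
  obtain ⟨d, hd⟩ : ∃ d : ℝ, d = δ / 20 := ⟨_, rfl⟩
  have hd0 : 0 < d := by rw [hd]; positivity
  have hd1 : d ≤ 1 / 20 := by rw [hd]; linarith
  have L1 := Lim_one hA d hd0 (by linarith)
  have L2 := Lim_two hA
  have hTn : Tendsto (fun n : ℕ => (n : ℝ)) atTop atTop := tendsto_natCast_atTop_atTop
  filter_upwards [mean_up hA σ hσ hSG L1 d hd0 (ε / 2) (by positivity), mean_low hA σ hσ hSG L1 d hd0 (ε / 2) (by positivity),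
    mean_up hA σ hσ hSG L2 1 one_pos (ε / 2) (by positivity), log_pow_small 2 (1 / (d * σ)) (ε / 2) (by positivity) (by positivity),
    log_pow_small 2 (2 / (d * σ)) (1 / 4) (by norm_num) (by positivity), rpow_big (1 / d) (1 / 4) (by norm_num),
    (hTn.const_mul_atTop hd0).eventually_ge_atTop 4, eventually_ge_atTop 3]
    with n a1 a2 a3 a4 a5 a6 a7 a8 H hH1 hH2
  obtain ⟨U, hU⟩ : ∃ U : ℕ, U = ⌊d * (n : ℝ)⌋₊ := ⟨_, rfl⟩
  obtain ⟨U', hU'⟩ : ∃ U' : ℕ, U' = ⌊(n : ℝ) ^ (3 / 4 : ℝ)⌋₊ := ⟨_, rfl⟩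
  simp only [← hU] at a1 a2
  simp only [← hU'] at a3
  have hn0 : (0 : ℝ) < n := by exact_mod_cast (by omega : 0 < n)
  have hn1 : (1 : ℝ) ≤ n := by exact_mod_cast (by omega : 1 ≤ n)
  obtain ⟨L, hL⟩ : ∃ L, L = Real.log (n : ℝ) := ⟨_, rfl⟩
  have hL0 : 0 < L := by rw [hL]; exact Real.log_pos (by exact_mod_cast (by omega : 1 < n))
  rw [← hL] at a1 a2 a3 a4 a5 ⊢
  obtain ⟨f, hf⟩ : ∃ f, f = σ * FP (2 * n) := ⟨_, rfl⟩
  have hfσ : σ ≤ f := by
    rw [hf]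
    exact le_mul_of_one_le_right hσ.le (FP_ge _)
  have hf0 : 0 < f := by linarith
  rw [← hf] at a1 a2 a3 ⊢
  have hUn : (U : ℝ) ≤ d * n := by rw [hU]; exact Nat.floor_le (by positivity)
  have hUn2 : U < n := by
    have : (U : ℝ) < n := by nlinarith
    exact_mod_cast this
  have hU'n : (U' : ℝ) ≤ (n : ℝ) ^ (3 / 4 : ℝ) := by rw [hU']; exact Nat.floor_le (by positivity)
  have hpow : (n : ℝ) ^ (3 / 4 : ℝ) * (n : ℝ) ^ (1 / 4 : ℝ) = n := by
    rw [← Real.rpow_add hn0]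
    norm_num
  have hUU : U' ≤ U := by
    rw [hU, hU']
    apply Nat.floor_le_floor
    -- `n ^ (3 / 4) ≤ d n`
    have h1 : 1 ≤ d * (n : ℝ) ^ (1 / 4 : ℝ) := by
      rw [div_lt_iff₀ hd0] at a6
      linarith
    have h2 : 0 < (n : ℝ) ^ (3 / 4 : ℝ) := by positivity
    nlinarith
  have hH0 : (0 : ℝ) < H := lt_of_lt_of_le (by positivity) hH1
  have hHn : (H : ℝ) ≤ n := by exact_mod_cast hH2.le
  obtain ⟨M, hM⟩ : ∃ M, M = f * ((H : ℝ) / L ^ 2) := ⟨_, rfl⟩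
  have hM0 : 0 < M := by rw [hM]; positivity
  rw [← hM]
  -- the error term
  have herr : (n : ℝ) ^ (ε / 2) ≤ d * M := by
    have h1 : (n : ℝ) ^ (ε / 2) * (n : ℝ) ^ (ε / 2) = (n : ℝ) ^ ε := by
      rw [← Real.rpow_add hn0]
      congr 1
      ring
    have h2 : 0 < (n : ℝ) ^ (ε / 2) := by positivity
    rw [one_div, inv_mul_le_iff₀ (by positivity)] at a4
    have h3 : (n : ℝ) ^ (ε / 2) * L ^ 2 ≤ d * σ * (n : ℝ) ^ ε := by
      calc (n : ℝ) ^ (ε / 2) * L ^ 2 ≤ (n : ℝ) ^ (ε / 2) * (d * σ * (n : ℝ) ^ (ε / 2)) := mul_le_mul_of_nonneg_left a4 h2.le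
        _ = d * σ * ((n : ℝ) ^ (ε / 2) * (n : ℝ) ^ (ε / 2)) := by ring
        _ = d * σ * (n : ℝ) ^ ε := by rw [h1]
    rw [hM]
    calc (n : ℝ) ^ (ε / 2) = (n : ℝ) ^ (ε / 2) * L ^ 2 / L ^ 2 := by field_simp
      _ ≤ d * σ * (n : ℝ) ^ ε / L ^ 2 := div_le_div_of_nonneg_right h3 (by positivity)
      _ ≤ d * f * H / L ^ 2 := by
          apply div_le_div_of_nonneg_right _ (by positivity)
          apply mul_le_mul _ hH1 (by positivity) (by positivity)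
          exact mul_le_mul_of_nonneg_left hfσ hd0.le
      _ = d * (f * (H / L ^ 2)) := by ring
  by_cases hc : H + U ≤ n
  · have b1 := a1 0 H (Nat.zero_le _) hc
    have b2 := a2 0 H (Nat.zero_le _) hc
    simp only [Nat.cast_zero, sub_zero, ← hM] at b1 b2
    rw [abs_le]
    constructor <;> nlinarith
  · push Not at hc
    obtain ⟨H₀, hH₀⟩ : ∃ H₀, H₀ = n - U := ⟨_, rfl⟩
    obtain ⟨H₁, hH₁⟩ : ∃ H₁, H₁ = n - U' := ⟨_, rfl⟩
    have b1 := a1 0 H₀ (Nat.zero_le _) (by omega)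
    have b2 := a2 0 H₀ (Nat.zero_le _) (by omega)
    have b3 := a3 H₀ H₁ (by omega) (by omega)
    simp only [Nat.cast_zero, sub_zero] at b1 b2
    have hr0 : ((H₀ : ℕ) : ℝ) = n - U := by rw [hH₀, Nat.cast_sub hUn2.le]
    have hr1 : ((H₁ : ℕ) : ℝ) ≤ n := by
      rw [hH₁, Nat.cast_sub (by omega)]
      linarith [Nat.cast_nonneg (α := ℝ) U']
    have hHge : (1 - d) * n ≤ H := by
      have : (n : ℝ) < H + U := by exact_mod_cast hc
      linarith
    have hH0le : (H₀ : ℝ) ≤ H := by exact_mod_cast (by omega : H₀ ≤ H)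
    have hH0ge : (1 - d) * H ≤ (H₀ : ℝ) := by
      rw [hr0]
      nlinarith
    -- `M₀ = f H₀ / L ^ 2`
    obtain ⟨M₀, hM₀⟩ : ∃ M₀, M₀ = f * ((H₀ : ℝ) / L ^ 2) := ⟨_, rfl⟩
    rw [← hM₀] at b1 b2
    have c1 : M₀ ≤ M := by
      rw [hM₀, hM]
      exact mul_le_mul_of_nonneg_left (div_le_div_of_nonneg_right hH0le (by positivity)) hf0.le
    have c2 : (1 - d) * M ≤ M₀ := by
      rw [hM₀, hM]
      calc (1 - d) * (f * ((H : ℝ) / L ^ 2)) = f * (((1 - d) * H) / L ^ 2) := by ring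
        _ ≤ f * ((H₀ : ℝ) / L ^ 2) := mul_le_mul_of_nonneg_left (div_le_div_of_nonneg_right hH0ge (by positivity)) hf0.le
    have c3 : ∑ h ∈ Ioc 0 H₀, GG A n h ≤ ∑ h ∈ Ioc 0 H, GG A n h :=
      sum_le_sum_of_subset_of_nonneg (Ioc_subset_Ioc_right (by omega)) fun h _ _ => GG_nonneg A n h
    have c4 : ∑ h ∈ Ioc 0 H, GG A n h ≤ ∑ h ∈ Ioc 0 H₀, GG A n h + ∑ h ∈ Ioc H₀ H₁, GG A n h +
        ∑ h ∈ Ioc H₁ n, GG A n h := by
      rw [sum_Ioc_consecutive _ (by omega) (by omega), sum_Ioc_consecutive _ (by omega) (by omega)]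
      exact sum_le_sum_of_subset_of_nonneg (Ioc_subset_Ioc_right hH2.le) fun h _ _ => GG_nonneg A n h
    have c5 : ∑ h ∈ Ioc H₁ n, GG A n h ≤ (n : ℝ) ^ (3 / 4 : ℝ) := by
      calc ∑ h ∈ Ioc H₁ n, GG A n h ≤ ∑ _h ∈ Ioc H₁ n, (1 : ℝ) := by
            refine sum_le_sum fun h _ => ?_
            unfold GG
            exact mul_le_one₀ (pr_le_one A _) (pr_nonneg A _) (pr_le_one A _)
        _ = ((n - H₁ : ℕ) : ℝ) := by rw [sum_const, Nat.card_Ioc, nsmul_eq_mul, mul_one]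
        _ ≤ (U' : ℝ) := by exact_mod_cast (by omega : n - H₁ ≤ U')
        _ ≤ _ := hU'n
    have c6 : (n : ℝ) ^ (3 / 4 : ℝ) ≤ d * M := by
      rw [div_mul_eq_mul_div, div_le_iff₀ (by positivity)] at a5
      have h1 : (n : ℝ) ^ (3 / 4 : ℝ) * (2 * L ^ 2) ≤ d * σ * n := by
        calc (n : ℝ) ^ (3 / 4 : ℝ) * (2 * L ^ 2) ≤ (n : ℝ) ^ (3 / 4 : ℝ) * ((n : ℝ) ^ (1 / 4 : ℝ) * (d * σ)) :=
              mul_le_mul_of_nonneg_left a5 (by positivity)
          _ = d * σ * ((n : ℝ) ^ (3 / 4 : ℝ) * (n : ℝ) ^ (1 / 4 : ℝ)) := by ring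
          _ = d * σ * n := by rw [hpow]
      have h2 : (n : ℝ) ≤ 2 * H := by nlinarith
      rw [hM]
      calc (n : ℝ) ^ (3 / 4 : ℝ) = (n : ℝ) ^ (3 / 4 : ℝ) * (2 * L ^ 2) / (2 * L ^ 2) := by field_simp
        _ ≤ d * σ * n / (2 * L ^ 2) := div_le_div_of_nonneg_right h1 (by positivity)
        _ ≤ d * f * (2 * H) / (2 * L ^ 2) := by
            apply div_le_div_of_nonneg_right _ (by positivity)
            apply mul_le_mul _ h2 hn0.le (by positivity)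
            exact mul_le_mul_of_nonneg_left hfσ hd0.le
        _ = d * (f * (H / L ^ 2)) := by field_simp
    have c7 : ((3 / 4 : ℝ)⁻¹ + 1) * (f * (((H₁ : ℝ) - H₀) / L ^ 2)) ≤ 6 * d * M := by
      have h1 : (H₁ : ℝ) - H₀ ≤ 2 * d * H := by
        rw [hr0]
        have : (U : ℝ) ≤ d * n := hUn
        nlinarith
      have h2 : ((3 / 4 : ℝ)⁻¹ + 1) ≤ 3 := by norm_num
      have h3 : f * (((H₁ : ℝ) - H₀) / L ^ 2) ≤ 2 * d * M := by
        rw [hM]
        calc f * (((H₁ : ℝ) - H₀) / L ^ 2) ≤ f * ((2 * d * H) / L ^ 2) :=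
              mul_le_mul_of_nonneg_left (div_le_div_of_nonneg_right h1 (by positivity)) hf0.le
          _ = 2 * d * (f * (H / L ^ 2)) := by ring
      calc ((3 / 4 : ℝ)⁻¹ + 1) * (f * (((H₁ : ℝ) - H₀) / L ^ 2)) ≤ ((3 / 4 : ℝ)⁻¹ + 1) * (2 * d * M) :=
            mul_le_mul_of_nonneg_left h3 (by norm_num)
        _ ≤ 3 * (2 * d * M) := mul_le_mul_of_nonneg_right h2 (by positivity)
        _ = 6 * d * M := by ring
    have hdM : 0 < d * M := by positivity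
    have e1 : δ * M = 20 * (d * M) := by rw [hd]; ring
    have e2 : d * M₀ ≤ d * M := mul_le_mul_of_nonneg_left c1 hd0.le
    have e3 : 0 ≤ M₀ := by rw [hM₀]; positivity
    rw [abs_le, e1]
    constructor
    · have : (1 - d) * M₀ - d * M ≤ ∑ h ∈ Ioc 0 H, GG A n h := by linarith
      nlinarith
    · nlinarith

end Pool.Agent.T2H62.MP
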